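import Mathlib
import Pool.Agent.X130.CES.Corr

set_option autoImplicit false

namespace Pool.Agent.Results.MP_bd0f13_lc.CoalitionExchangeStableNPHard

/-- Deciding whether a stable marriage instance (with complete strict preference lists) has a
coalition-exchange-stable matching is NP-hard. -/
theorem result : Pool.Agent.NPC.NPHardP Pool.Agent.X130.CES.HasCES :=
  Pool.Agent.X130.CES.hard

end Pool.Agent.Results.MP_bd0f13_lc.CoalitionExchangeStableNPHard
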